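import Mathlib

/-!
# Project NPP: arithmetic of the exponent (AF)
-/

set_option autoImplicit false

namespace Pool.Agent.J4H19.NPP

lemma size_bd (m : ℕ) : (m + 1) ^ 3 < 8 * 2 ^ (4 * (((m + 1) ^ 3).size / 4)) ∧
    2 ^ (4 * (((m + 1) ^ 3).size / 4)) ≤ 2 * (m + 1) ^ 3 := by
  set s := ((m + 1) ^ 3).size with hs
  have h1 : (m + 1) ^ 3 < 2 ^ s := Nat.lt_size_self _
  have h2 : 4 * (s / 4) ≤ s := Nat.mul_div_le _ _
  have h3 : s ≤ 3 + 4 * (s / 4) := by omega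
  have hs0 : 0 < s := Nat.size_pos.2 (by positivity)
  have h4 : 2 ^ (s - 1) ≤ (m + 1) ^ 3 := Nat.lt_size.1 (by omega)
  constructor
  · calc (m + 1) ^ 3 < 2 ^ s := h1
      _ ≤ 2 ^ (3 + 4 * (s / 4)) := Nat.pow_le_pow_right (by norm_num) h3
      _ = 8 * 2 ^ (4 * (s / 4)) := by rw [pow_add]; norm_num
  · calc 2 ^ (4 * (s / 4)) ≤ 2 ^ s := Nat.pow_le_pow_right (by norm_num) h2
      _ = 2 * 2 ^ (s - 1) := by rw [← pow_succ']; congr 1; omega
      _ ≤ 2 * (m + 1) ^ 3 := by omega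

lemma two_pow_le (m : ℕ) : 2 ^ (((m + 1) ^ 3).size / 4) ≤ 2 * (m + 1) := by
  have h := (size_bd m).2
  set e := ((m + 1) ^ 3).size / 4
  have h1 : (2 ^ e) ^ 4 ≤ (2 * (m + 1)) ^ 4 := by
    calc (2 ^ e) ^ 4 = 2 ^ (4 * e) := by rw [← pow_mul, mul_comm]
      _ ≤ 2 * (m + 1) ^ 3 := h
      _ ≤ (2 * (m + 1)) ^ 4 := by
        have : (2 * (m + 1)) ^ 4 = 2 * (m + 1) ^ 3 * (8 * (m + 1)) := by ring
        rw [this]
        exact Nat.le_mul_of_pos_right _ (by positivity)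
  exact (Nat.pow_le_pow_iff_left (by norm_num)).1 h1

lemma ax_le (m : ℕ) : 7 + ((m + 1) ^ 3).size / 4 ≤ m + 8 := by
  have h := two_pow_le m
  have h1 : 2 * (m + 1) ≤ 2 ^ (m + 1) := by
    rw [pow_succ']
    have := Nat.lt_two_pow_self (n := m)
    omega
  have h2 := (Nat.pow_le_pow_iff_right (a := 2) (by norm_num)).1 (h.trans h1)
  omega

lemma af1 : ∑' m : ℕ, (2⁻¹ : ENNReal) ^ (2 * (7 + ((m + 1) ^ 3).size / 4)) ≠ ⊤ := by
  have hsum : Summable fun m : ℕ => 3 * (1 / ((m : ℝ) + 1) ^ (3 / 2 : ℝ)) := by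
    apply Summable.mul_left
    have h := (Real.summable_one_div_nat_rpow (p := 3 / 2)).2 (by norm_num)
    have h2 := (summable_nat_add_iff 1).2 h
    simpa using h2
  refine ne_top_of_le_ne_top hsum.tsum_ofReal_ne_top (ENNReal.tsum_le_tsum fun m => ?_)
  have h0 : (2⁻¹ : ENNReal) ^ (2 * (7 + ((m + 1) ^ 3).size / 4)) =
      ENNReal.ofReal ((2⁻¹ : ℝ) ^ (2 * (7 + ((m + 1) ^ 3).size / 4))) := by
    rw [ENNReal.ofReal_pow (by norm_num), ENNReal.ofReal_inv_of_pos (by norm_num)]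
    norm_num
  rw [h0]
  apply ENNReal.ofReal_le_ofReal
  have h1 := (size_bd m).1
  set e := ((m + 1) ^ 3).size / 4
  have h2 : (2⁻¹ : ℝ) ^ (2 * (7 + e)) ≤ (2⁻¹ : ℝ) ^ (2 * e) :=
    pow_le_pow_of_le_one (by norm_num) (by norm_num) (by omega)
  refine h2.trans ?_
  have hm : (0 : ℝ) < (m : ℝ) + 1 := by positivity
  set y : ℝ := ((m : ℝ) + 1) ^ (3 / 2 : ℝ) with hy
  have hy0 : 0 < y := Real.rpow_pos_of_pos hm _
  have hy2 : y ^ 2 = ((m : ℝ) + 1) ^ 3 := by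
    rw [hy, ← Real.rpow_natCast (((m : ℝ) + 1) ^ (3 / 2 : ℝ)) 2, ← Real.rpow_mul hm.le]
    norm_num
  have h3 : y ^ 2 < (3 * 2 ^ (2 * e)) ^ 2 := by
    have h4 : ((m : ℝ) + 1) ^ 3 < 8 * 2 ^ (4 * e) := by exact_mod_cast h1
    rw [hy2]
    calc ((m : ℝ) + 1) ^ 3 < 8 * 2 ^ (4 * e) := h4
      _ ≤ 9 * 2 ^ (4 * e) := by gcongr; norm_num
      _ = (3 * 2 ^ (2 * e)) ^ 2 := by rw [mul_pow, ← pow_mul]; norm_num; ring_nf
  have h5 : y < 3 * 2 ^ (2 * e) := lt_of_pow_lt_pow_left₀ 2 (by positivity) h3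
  rw [inv_pow, mul_one_div, inv_eq_one_div, div_le_div_iff₀ (by positivity) hy0]
  linarith

lemma af2 : ∑' m : ℕ, (2⁻¹ : ENNReal) ^ (7 + ((m + 1) ^ 3).size / 4) = ⊤ := by
  by_contra h
  have h1 := ENNReal.summable_toReal h
  have h2 : Summable fun m : ℕ => (1 / ((m : ℝ) + 1)) := by
    have h3 : Summable fun m : ℕ => 256 * (((2⁻¹ : ENNReal) ^ (7 + ((m + 1) ^ 3).size / 4)).toReal) :=
      h1.mul_left 256
    refine Summable.of_nonneg_of_le (fun m => by positivity) (fun m => ?_) h3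
    have h4 := two_pow_le m
    set e := ((m + 1) ^ 3).size / 4
    have h5 : ((2 : ℝ) ^ e) ≤ 2 * ((m : ℝ) + 1) := by exact_mod_cast h4
    rw [ENNReal.toReal_pow, ENNReal.toReal_inv, inv_pow, pow_add]
    have h6 : (ENNReal.toReal 2) = 2 := by simp
    rw [h6, ← div_eq_mul_inv, div_le_div_iff₀ (by positivity) (by positivity)]
    nlinarith
  have h3 := (summable_nat_add_iff (f := fun m : ℕ => 1 / (m : ℝ)) 1).1 (by simpa using h2)
  exact Real.not_summable_one_div_natCast h3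

end Pool.Agent.J4H19.NPP
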