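import Mathlib

/-!
# Project NPP: the abstract summation (ENG)
-/

set_option autoImplicit false

open MeasureTheory Filter Set

namespace Pool.Agent.J4H19.NPP

variable {Ω : Type} [MeasurableSpace Ω] {μ : Measure Ω}

lemma conv (L : Ω → ℕ) (hL : ∀ m, MeasurableSet {A | L A = m}) (S : Set Ω) (hS : MeasurableSet S)
    (c : ℕ → ENNReal) :
    ∫⁻ A, S.indicator (fun A => c (L A)) A ∂μ = ∑' m, c m * μ (S ∩ {A | L A = m}) := by
  have h1 : ∀ A, S.indicator (fun A => c (L A)) A =
      ∑' m, (S ∩ {A | L A = m}).indicator (fun _ => c m) A := by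
    intro A
    rw [tsum_eq_single (L A)]
    · by_cases hA : A ∈ S
      · rw [indicator_of_mem hA, indicator_of_mem]
        exact ⟨hA, rfl⟩
      · rw [indicator_of_notMem hA, indicator_of_notMem]
        exact fun h => hA h.1
    · intro m hm
      rw [indicator_of_notMem]
      exact fun h => hm h.2.symm
  simp_rw [h1]
  rw [lintegral_tsum]
  · refine tsum_congr fun m => ?_
    rw [lintegral_indicator_const (hS.inter (hL m))]
  · intro m
    exact (measurable_const.indicator (hS.inter (hL m))).aemeasurable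

lemma meas_ind (L : Ω → ℕ) (hL : ∀ m, MeasurableSet {A | L A = m}) (S : Set Ω) (hS : MeasurableSet S)
    (c : ℕ → ENNReal) : Measurable (S.indicator (fun A => c (L A))) := by
  refine Measurable.indicator ?_ hS
  have hLm : Measurable L := measurable_to_countable' fun m => hL m
  exact (measurable_from_nat (f := c)).comp hLm

/-- the decomposition by the level of a single set -/
lemma sum_level (L : Ω → ℕ) (hL : ∀ m, MeasurableSet {A | L A = m}) (S : Set Ω)
    (hS : MeasurableSet S) : ∑' m, μ (S ∩ {A | L A = m}) = μ S := by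
  have h := conv (μ := μ) L hL S hS (fun _ => 1)
  simp only [one_mul] at h
  rw [← h]
  have : (fun A => S.indicator (fun _ => (1 : ENNReal)) A) = S.indicator 1 := rfl
  rw [this, lintegral_indicator_one hS]

theorem eng [IsProbabilityMeasure μ] (a : ℕ → ℕ)
  (lev : ℕ → Ω → ℕ) (Er Bt Cp : ℕ → Set Ω)
  (hl : ∀ k m, MeasurableSet {A | lev k A = m}) (hE : ∀ k, MeasurableSet (Er k))
  (hB : ∀ k, MeasurableSet (Bt k)) (hC : ∀ k, MeasurableSet (Cp k)) (h0 : ∀ A, lev 0 A = 0)
  (hc1 : ∀ k, ∀ A ∈ Cp k, lev (k + 1) A = lev k A)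
  (hc2 : ∀ k, ∀ A ∉ Cp k, lev (k + 1) A = lev k A + 1)
  (ha : ∀ m, 7 ≤ a m) (hw : ∑' m, (2⁻¹ : ENNReal) ^ (2 * a m) ≠ ⊤)
  (hv : ∑' m, (2⁻¹ : ENNReal) ^ (a m) = ⊤)
  (h2 : ∀ k m, (2⁻¹ : ENNReal) ^ (2 * a m) * μ ({A | ∀ j < k, A ∉ Er j} ∩ {A | lev k A = m} ∩ Cp k) ≤
    8 * μ ({A | ∀ j < k, A ∉ Er j} ∩ {A | lev k A = m} ∩ Er k) +
      64 * 2⁻¹ ^ (3 * a m) * μ ({A | ∀ j < k, A ∉ Er j} ∩ {A | lev k A = m}))
  (h3 : ∀ k m, μ ({A | ∀ j < k, A ∉ Er j} ∩ {A | lev k A = m} ∩ Bt k) ≤
    2⁻¹ ^ (2 * a m) * μ ({A | ∀ j < k, A ∉ Er j} ∩ {A | lev k A = m})) :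
  (∀ᵐ A ∂μ, (∀ k, A ∉ Er k) → ∀ᶠ k in atTop, A ∉ Bt k) ∧
  ∀ (Fl : ℕ → Set Ω) (k1 : ℕ), (∀ k ≥ k1, MeasurableSet (Fl k)) →
    (∀ k ≥ k1, ∀ m, (2⁻¹ : ENNReal) ^ (a m) *
      μ ({A | ∀ j < k, A ∉ Er j} ∩ {A | ∀ j < k, k1 ≤ j → A ∉ Fl j} ∩ {A | lev k A = m} ∩ (Cp k)ᶜ) ≤
      4 * μ ({A | ∀ j < k, A ∉ Er j} ∩ {A | ∀ j < k, k1 ≤ j → A ∉ Fl j} ∩ {A | lev k A = m} ∩ Fl k) +
        16 * 2⁻¹ ^ (2 * a m) *
          μ ({A | ∀ j < k, A ∉ Er j} ∩ {A | ∀ j < k, k1 ≤ j → A ∉ Fl j} ∩ {A | lev k A = m})) →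
    ∀ᵐ A ∂μ, (∀ k, A ∉ Er k) → ∃ k ≥ k1, A ∈ Fl k := by
  set D : ℕ → Set Ω := fun k => {A | ∀ j < k, A ∉ Er j} with hD
  set w : ℕ → ENNReal := fun m => (2⁻¹ : ENNReal) ^ (2 * a m) with hwd
  set v : ℕ → ENNReal := fun m => (2⁻¹ : ENNReal) ^ (a m) with hvd
  set W : ENNReal := ∑' m, w m with hW
  have hDm : ∀ k, MeasurableSet (D k) := by
    intro k
    have : D k = ⋂ j ∈ Finset.range k, (Er j)ᶜ := by
      ext A
      simp [hD]
    rw [this]
    exact Finset.measurableSet_biInter _ fun j _ => (hE j).compl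
  have hmono : ∀ A, Monotone fun k => lev k A := by
    intro A
    refine monotone_nat_of_le_succ fun k => ?_
    by_cases h : A ∈ Cp k
    · rw [hc1 k A h]
    · rw [hc2 k A h]; omega
  set s : ℕ → ENNReal := fun k => ∑' m, w m * μ (D k ∩ {A | lev k A = m}) with hs
  -- first errors
  have hEr : ∑' k, μ (D k ∩ Er k) ≤ 1 := by
    have h := tsum_measure_le_measure_univ (μ := μ) (s := fun k => D k ∩ Er k)
      (fun k => ((hDm k).inter (hE k)).nullMeasurableSet) (by
        intro i j hij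
        apply Disjoint.aedisjoint
        rw [Set.disjoint_left]
        rintro A ⟨h1, h2⟩ ⟨h3, h4⟩
        rcases lt_or_gt_of_ne hij with h | h
        · exact h3 i h h2
        · exact h1 j h h4)
    simpa using h
  -- jumps
  have hjump : ∀ m, ∑' k, μ ({A | lev k A = m} ∩ (Cp k)ᶜ) ≤ 1 := by
    intro m
    have h := tsum_measure_le_measure_univ (μ := μ) (s := fun k => {A | lev k A = m} ∩ (Cp k)ᶜ)
      (fun k => ((hl k m).inter (hC k).compl).nullMeasurableSet) (by
        intro i j hij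
        apply Disjoint.aedisjoint
        rw [Set.disjoint_left]
        rintro A ⟨h1, h2⟩ ⟨h3, h4⟩
        rcases lt_or_gt_of_ne hij with h | h
        · have h5 := hmono A (Nat.succ_le_of_lt h)
          have h6 := hc2 i A h2
          simp only [mem_setOf_eq, Nat.succ_eq_add_one] at *
          omega
        · have h5 := hmono A (Nat.succ_le_of_lt h)
          have h6 := hc2 j A h4
          simp only [mem_setOf_eq, Nat.succ_eq_add_one] at *
          omega)
    simpa using h
  have hpow : ∀ m, (64 : ENNReal) * 2⁻¹ ^ (3 * a m) ≤ 2⁻¹ * w m := by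
    intro m
    have e1 : (2⁻¹ : ENNReal) ^ (3 * a m) = w m * 2⁻¹ ^ (a m) := by
      rw [hwd, ← pow_add]; congr 1; ring
    have e2 : (2⁻¹ : ENNReal) ^ (a m) ≤ 2⁻¹ ^ 7 :=
      pow_le_pow_right_of_le_one' (by simp) (ha m)
    calc (64 : ENNReal) * 2⁻¹ ^ (3 * a m) = w m * (64 * 2⁻¹ ^ (a m)) := by rw [e1]; ring
      _ ≤ w m * (64 * 2⁻¹ ^ 7) := by gcongr
      _ = 2⁻¹ * w m := by
        have : (64 : ENNReal) * 2⁻¹ ^ 7 = 2⁻¹ := by
          have h64 : (64 : ENNReal) = 2 ^ 6 := by norm_num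
          rw [h64, pow_succ (2⁻¹ : ENNReal) 6, ← mul_assoc, ← mul_pow,
            ENNReal.mul_inv_cancel (by norm_num) (by norm_num), one_pow, one_mul]
        rw [this, mul_comm]
  have hsk : ∀ k, s k ≤ 8 * μ (D k ∩ Er k) + 2⁻¹ * s k +
      ∑' m, w m * μ ({A | lev k A = m} ∩ (Cp k)ᶜ) := by
    intro k
    have h5 : ∀ m, w m * μ (D k ∩ {A | lev k A = m}) ≤
        (8 * μ (D k ∩ Er k ∩ {A | lev k A = m}) + 2⁻¹ * (w m * μ (D k ∩ {A | lev k A = m}))) +
          w m * μ ({A | lev k A = m} ∩ (Cp k)ᶜ) := by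
      intro m
      have e1 : μ (D k ∩ {A | lev k A = m}) ≤ μ (D k ∩ {A | lev k A = m} ∩ Cp k) +
          μ ({A | lev k A = m} ∩ (Cp k)ᶜ) := by
        rw [← measure_inter_add_diff (D k ∩ {A | lev k A = m}) (hC k)]
        gcongr
        intro A hA
        exact ⟨hA.1.2, hA.2⟩
      calc w m * μ (D k ∩ {A | lev k A = m}) ≤ w m * (μ (D k ∩ {A | lev k A = m} ∩ Cp k) +
          μ ({A | lev k A = m} ∩ (Cp k)ᶜ)) := by gcongr
        _ = w m * μ (D k ∩ {A | lev k A = m} ∩ Cp k) + w m * μ ({A | lev k A = m} ∩ (Cp k)ᶜ) := by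
          ring
        _ ≤ _ := by
          refine add_le_add ((h2 k m).trans (add_le_add ?_ ?_)) le_rfl
          · rw [Set.inter_right_comm]
          · rw [← mul_assoc]
            exact mul_le_mul' (hpow m) le_rfl
    calc s k ≤ ∑' m, ((8 * μ (D k ∩ Er k ∩ {A | lev k A = m}) +
        2⁻¹ * (w m * μ (D k ∩ {A | lev k A = m}))) + w m * μ ({A | lev k A = m} ∩ (Cp k)ᶜ)) :=
          ENNReal.tsum_le_tsum h5
      _ = 8 * μ (D k ∩ Er k) + 2⁻¹ * s k + ∑' m, w m * μ ({A | lev k A = m} ∩ (Cp k)ᶜ) := by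
        rw [ENNReal.tsum_add, ENNReal.tsum_add, ENNReal.tsum_mul_left, ENNReal.tsum_mul_left,
          sum_level _ (hl k) _ ((hDm k).inter (hE k))]
  have hw1 : ∀ m, w m ≤ 1 := fun m => pow_le_one' (by simp) _
  have hs1 : ∀ k, s k ≤ 1 := by
    intro k
    calc s k ≤ ∑' m, μ (D k ∩ {A | lev k A = m}) := by
          refine ENNReal.tsum_le_tsum fun m => ?_
          calc w m * _ ≤ 1 * μ (D k ∩ {A | lev k A = m}) := by gcongr; exact hw1 m
            _ = _ := one_mul _
      _ = μ (D k) := sum_level _ (hl k) _ (hDm k)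
      _ ≤ 1 := prob_le_one
  have hS : ∑' k, s k ≤ 2 * (8 + W) := by
    rw [ENNReal.tsum_eq_iSup_nat]
    refine iSup_le fun N => ?_
    set SN := ∑ k ∈ Finset.range N, s k with hSN
    have hfin : SN ≠ ⊤ := by
      rw [hSN]
      exact ENNReal.sum_ne_top.2 fun k _ => ne_top_of_le_ne_top ENNReal.one_ne_top (hs1 k)
    have h6 : SN ≤ 8 + 2⁻¹ * SN + W := by
      calc SN ≤ ∑ k ∈ Finset.range N, (8 * μ (D k ∩ Er k) + 2⁻¹ * s k +
          ∑' m, w m * μ ({A | lev k A = m} ∩ (Cp k)ᶜ)) := Finset.sum_le_sum fun k _ => hsk k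
        _ = 8 * ∑ k ∈ Finset.range N, μ (D k ∩ Er k) + 2⁻¹ * SN +
            ∑ k ∈ Finset.range N, ∑' m, w m * μ ({A | lev k A = m} ∩ (Cp k)ᶜ) := by
          rw [Finset.sum_add_distrib, Finset.sum_add_distrib, ← Finset.mul_sum, ← Finset.mul_sum]
        _ ≤ 8 * 1 + 2⁻¹ * SN + W := by
          refine add_le_add (add_le_add ?_ le_rfl) ?_
          · gcongr
            exact (ENNReal.sum_le_tsum _).trans hEr
          · calc ∑ k ∈ Finset.range N, ∑' m, w m * μ ({A | lev k A = m} ∩ (Cp k)ᶜ) ≤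
                ∑' k, ∑' m, w m * μ ({A | lev k A = m} ∩ (Cp k)ᶜ) := ENNReal.sum_le_tsum _
              _ = ∑' m, w m * ∑' k, μ ({A | lev k A = m} ∩ (Cp k)ᶜ) := by
                rw [ENNReal.tsum_comm]
                refine tsum_congr fun m => ?_
                rw [ENNReal.tsum_mul_left]
              _ ≤ ∑' m, w m * 1 := by
                refine ENNReal.tsum_le_tsum fun m => ?_
                gcongr
                exact hjump m
              _ = W := by simp [hW]
        _ = _ := by rw [mul_one]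
    have h7 : 2⁻¹ * SN + 2⁻¹ * SN = SN := by
      rw [← add_mul, ENNReal.inv_two_add_inv_two, one_mul]
    have h8 : 2⁻¹ * SN + 2⁻¹ * SN ≤ 2⁻¹ * SN + (8 + W) := by
      rw [h7]
      calc SN ≤ 8 + 2⁻¹ * SN + W := h6
        _ = _ := by ring
    have h9 : 2⁻¹ * SN ≠ ⊤ := ENNReal.mul_ne_top (by simp) hfin
    have h10 := (ENNReal.add_le_add_iff_left h9).1 h8
    calc SN = 2 * (2⁻¹ * SN) := by
          rw [← mul_assoc, ENNReal.mul_inv_cancel (by norm_num) (by norm_num), one_mul]
      _ ≤ 2 * (8 + W) := by gcongr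
  have hSfin : ∑' k, s k ≠ ⊤ := by
    refine ne_top_of_le_ne_top ?_ hS
    exact ENNReal.mul_ne_top (by norm_num) (ENNReal.add_ne_top.2 ⟨by norm_num, hw⟩)
  refine ⟨?_, ?_⟩
  · have h5 : ∑' k, μ (D k ∩ Bt k) ≠ ⊤ := by
      refine ne_top_of_le_ne_top hSfin (ENNReal.tsum_le_tsum fun k => ?_)
      rw [← sum_level (μ := μ) _ (hl k) _ ((hDm k).inter (hB k))]
      refine ENNReal.tsum_le_tsum fun m => ?_
      have h6 : D k ∩ Bt k ∩ {A | lev k A = m} = D k ∩ {A | lev k A = m} ∩ Bt k :=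
        Set.inter_right_comm _ _ _
      rw [h6]
      exact h3 k m
    have h6 := ae_eventually_notMem h5
    filter_upwards [h6] with A hA hno
    filter_upwards [hA] with k hk hBt
    exact hk ⟨fun j _ => hno j, hBt⟩
  · intro Fl k1 hFl h4
    set G : ℕ → Set Ω := fun k => {A | ∀ j < k, k1 ≤ j → A ∉ Fl j} with hG
    have hGm : ∀ k, MeasurableSet (G k) := by
      intro k
      have : G k = ⋂ j ∈ (Finset.range k).filter (fun j => k1 ≤ j), (Fl j)ᶜ := by
        ext A
        simp [hG]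
      rw [this]
      refine Finset.measurableSet_biInter _ fun j hj => (hFl j ?_).compl
      exact (Finset.mem_filter.1 hj).2
    have hFlm : ∑' i, μ (D (i + k1) ∩ G (i + k1) ∩ Fl (i + k1)) ≤ 1 := by
      have h := tsum_measure_le_measure_univ (μ := μ)
        (s := fun i => D (i + k1) ∩ G (i + k1) ∩ Fl (i + k1))
        (fun k => (((hDm _).inter (hGm _)).inter (hFl _ (by omega))).nullMeasurableSet) (by
          intro i j hij
          apply Disjoint.aedisjoint
          rw [Set.disjoint_left]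
          rintro A ⟨⟨_, h1⟩, h2⟩ ⟨⟨_, h3⟩, h4⟩
          rcases lt_or_gt_of_ne hij with h | h
          · exact h3 (i + k1) (by omega) (by omega) h2
          · exact h1 (j + k1) (by omega) (by omega) h4)
      simpa using h
    -- the total weight of the stages which are not captured
    have h5 : ∑' i, ∑' m, v m * μ ((D (i + k1) ∩ G (i + k1) ∩ (Cp (i + k1))ᶜ) ∩
        {A | lev (i + k1) A = m}) ≠ ⊤ := by
      have h6 : ∀ i, ∑' m, v m * μ ((D (i + k1) ∩ G (i + k1) ∩ (Cp (i + k1))ᶜ) ∩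
          {A | lev (i + k1) A = m}) ≤
          4 * μ (D (i + k1) ∩ G (i + k1) ∩ Fl (i + k1)) + 16 * s (i + k1) := by
        intro i
        set k := i + k1
        have hk : k1 ≤ k := by omega
        calc ∑' m, v m * μ ((D k ∩ G k ∩ (Cp k)ᶜ) ∩ {A | lev k A = m}) ≤
            ∑' m, (4 * μ (D k ∩ G k ∩ Fl k ∩ {A | lev k A = m}) +
              16 * (w m * μ (D k ∩ {A | lev k A = m}))) := by
              refine ENNReal.tsum_le_tsum fun m => ?_
              have e1 : D k ∩ G k ∩ (Cp k)ᶜ ∩ {A | lev k A = m} =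
                  D k ∩ G k ∩ {A | lev k A = m} ∩ (Cp k)ᶜ := Set.inter_right_comm _ _ _
              have e2 : D k ∩ G k ∩ Fl k ∩ {A | lev k A = m} =
                  D k ∩ G k ∩ {A | lev k A = m} ∩ Fl k := Set.inter_right_comm _ _ _
              rw [e1, e2]
              refine (h4 k hk m).trans (add_le_add le_rfl ?_)
              rw [mul_assoc]
              exact mul_le_mul' le_rfl (mul_le_mul' le_rfl (measure_mono
                (fun A hA => ⟨hA.1.1, hA.2⟩)))
          _ = _ := by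
              rw [ENNReal.tsum_add, ENNReal.tsum_mul_left, ENNReal.tsum_mul_left,
                sum_level _ (hl k) _ (((hDm k).inter (hGm k)).inter (hFl k hk))]
      refine ne_top_of_le_ne_top ?_ (ENNReal.tsum_le_tsum h6)
      rw [ENNReal.tsum_add, ENNReal.tsum_mul_left, ENNReal.tsum_mul_left]
      refine ENNReal.add_ne_top.2 ⟨ENNReal.mul_ne_top (by norm_num)
        (ne_top_of_le_ne_top ENNReal.one_ne_top hFlm), ENNReal.mul_ne_top (by norm_num) ?_⟩
      refine ne_top_of_le_ne_top hSfin ?_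
      exact ENNReal.tsum_comp_le_tsum_of_injective (add_left_injective k1) s
    -- pointwise
    have hp1 : ∀ᵐ A ∂μ, ∑' k, (D k).indicator (fun A => w (lev k A)) A ≠ ⊤ := by
      have h7 : ∫⁻ A, ∑' k, (D k).indicator (fun A => w (lev k A)) A ∂μ ≠ ⊤ := by
        rw [lintegral_tsum fun k => (meas_ind _ (hl k) _ (hDm k) w).aemeasurable]
        simp_rw [fun k => conv (μ := μ) (lev k) (hl k) (D k) (hDm k) w]
        exact hSfin
      have h8 := ae_lt_top' (AEMeasurable.ennreal_tsum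
        fun k => (meas_ind _ (hl k) _ (hDm k) w).aemeasurable) h7
      filter_upwards [h8] with A hA
      exact hA.ne
    have hp2 : ∀ᵐ A ∂μ, ∑' i, (D (i + k1) ∩ G (i + k1) ∩ (Cp (i + k1))ᶜ).indicator
        (fun A => v (lev (i + k1) A)) A ≠ ⊤ := by
      have hm : ∀ i, MeasurableSet (D (i + k1) ∩ G (i + k1) ∩ (Cp (i + k1))ᶜ) := fun i =>
        ((hDm _).inter (hGm _)).inter (hC _).compl
      have h7 : ∫⁻ A, ∑' i, (D (i + k1) ∩ G (i + k1) ∩ (Cp (i + k1))ᶜ).indicator
          (fun A => v (lev (i + k1) A)) A ∂μ ≠ ⊤ := by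
        rw [lintegral_tsum fun i => (meas_ind _ (hl (i + k1)) _ (hm i) v).aemeasurable]
        simp_rw [fun i => conv (μ := μ) (lev (i + k1)) (hl (i + k1)) _ (hm i) v]
        exact h5
      have h8 := ae_lt_top' (AEMeasurable.ennreal_tsum
        fun i => (meas_ind _ (hl (i + k1)) _ (hm i) v).aemeasurable) h7
      filter_upwards [h8] with A hA
      exact hA.ne
    filter_upwards [hp1, hp2] with A h7 h8 hno
    by_contra hcon
    push Not at hcon
    have hDA : ∀ k, A ∈ D k := fun k j _ => hno j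
    have hGA : ∀ k, A ∈ G k := fun k j _ hj => hcon j hj
    -- the levels are unbounded
    have hunb : ∀ M, ∃ k, M < lev k A := by
      intro M
      by_contra hM
      push Not at hM
      apply h7
      set c : ENNReal := ⨅ m ∈ Finset.range (M + 1), w m with hc
      have hc0 : c ≠ 0 := by
        rw [hc]
        have hpos : ∀ m, w m ≠ 0 := fun m => pow_ne_zero _ (by simp)
        have hne : (Finset.range (M + 1)).Nonempty := ⟨0, by simp⟩
        obtain ⟨m0, hm0, hmin⟩ := Finset.exists_min_image (Finset.range (M + 1)) w hne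
        have : w m0 ≤ ⨅ m ∈ Finset.range (M + 1), w m := le_iInf₂ hmin
        intro h0
        rw [h0] at this
        exact hpos m0 (le_zero_iff.1 this)
      have h9 : ∀ k, c ≤ (D k).indicator (fun A => w (lev k A)) A := by
        intro k
        rw [indicator_of_mem (hDA k)]
        exact iInf₂_le _ (Finset.mem_range.2 (Nat.lt_succ_of_le (hM k)))
      refine top_unique ?_
      calc (⊤ : ENNReal) = ∑' _ : ℕ, c := (ENNReal.tsum_const_eq_top_of_ne_zero hc0).symm
        _ ≤ _ := ENNReal.tsum_le_tsum h9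
    -- every level is left
    have hleave : ∀ m, lev k1 A ≤ m → ∃ i, lev (i + k1) A = m ∧ A ∉ Cp (i + k1) := by
      intro m hm
      obtain ⟨k, hk⟩ := hunb m
      classical
      have hex : ∃ i, m < lev (i + k1) A := by
        refine ⟨k, lt_of_lt_of_le hk (hmono A (by omega))⟩
      set i := Nat.find hex with hi
      have h10 := Nat.find_spec hex
      rw [← hi] at h10
      have hi0 : i ≠ 0 := by
        intro h0
        rw [h0, zero_add] at h10
        omega
      obtain ⟨i', hi'⟩ := Nat.exists_eq_succ_of_ne_zero hi0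
      have h11 : ¬ m < lev (i' + k1) A := Nat.find_min hex (by rw [← hi]; omega)
      refine ⟨i', ?_, ?_⟩
      · by_cases h12 : A ∈ Cp (i' + k1)
        · have h13 := hc1 _ A h12
          have h14 : i + k1 = i' + k1 + 1 := by omega
          rw [h14, h13] at h10
          exact absurd h10 h11
        · have h13 := hc2 _ A h12
          have h14 : i + k1 = i' + k1 + 1 := by omega
          rw [h14, h13] at h10
          omega
      · intro h12
        have h13 := hc1 _ A h12
        have h14 : i + k1 = i' + k1 + 1 := by omega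
        rw [h14, h13] at h10
        exact h11 h10
    choose κ hκ using fun m : ℕ => hleave (m + lev k1 A) (by omega)
    have hinj : Function.Injective κ := by
      intro m m' h
      have h1 := (hκ m).1
      have h2 := (hκ m').1
      rw [h] at h1
      omega
    apply h8
    refine top_unique ?_
    have h12 : ∑' m, v (m + lev k1 A) = ⊤ := by
      have h13 := Summable.sum_add_tsum_nat_add' (f := v) (k := lev k1 A) ENNReal.summable
      rw [show ∑' m, v m = ⊤ from hv] at h13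
      rcases ENNReal.add_eq_top.1 h13 with h14 | h14
      · exfalso
        refine ENNReal.sum_ne_top.2 (fun m _ => ?_) h14
        exact ENNReal.pow_ne_top (by simp)
      · exact h14
    calc (⊤ : ENNReal) = ∑' m, v (m + lev k1 A) := h12.symm
      _ = ∑' m, (D (κ m + k1) ∩ G (κ m + k1) ∩ (Cp (κ m + k1))ᶜ).indicator
          (fun A => v (lev (κ m + k1) A)) A := by
        refine tsum_congr fun m => ?_
        have hmem : A ∈ D (κ m + k1) ∩ G (κ m + k1) ∩ (Cp (κ m + k1))ᶜ :=
          ⟨⟨hDA _, hGA _⟩, (hκ m).2⟩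
        rw [indicator_of_mem hmem, (hκ m).1]
      _ ≤ _ := ENNReal.tsum_comp_le_tsum_of_injective hinj
          (fun i => (D (i + k1) ∩ G (i + k1) ∩ (Cp (i + k1))ᶜ).indicator
            (fun A => v (lev (i + k1) A)) A)

end Pool.Agent.J4H19.NPP
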