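import Pool.Agent.J4H25.NPP.Stm
import Pool.Agent.J4H19.NPP.Eng0
import Pool.Agent.J4H19.NPP.Af0

/-!
# Project NPP: jobs ENG and AF
-/

set_option autoImplicit false

namespace Pool.Agent.J4H19.NPP

open Pool.Agent.J4H25.NPP

theorem t_ENG : S_ENG := by
  intro Ω _ μ _ a lev Er Bt Cp hl hE hB hC h0 hc1 hc2 ha hw hv h2 h3
  exact eng a lev Er Bt Cp hl hE hB hC h0 hc1 hc2 ha hw hv h2 h3

theorem t_AF : S_AF := ⟨af1, af2, fun m => ⟨Nat.le_add_right 7 _, ax_le m⟩⟩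

end Pool.Agent.J4H19.NPP
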