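import Pool.Agent.J4H25.NPP.Stm

/-!
# Project NPP: upper bounds for the hits (UP)
-/

set_option autoImplicit false

namespace Pool.Agent.J4H19.NPP

open MeasureTheory Filter Pool.Agent.NPC Pool.Agent.H628R3.RO Pool.Agent.J4H25.NPP
open Pool.Agent.J4H45.EXP (T wds mem_wds card_wds)

/-- if two of the sets `F p` meet, then there is an extra event -/
lemma count_le {Ω ι τ : Type*} [MeasurableSpace Ω] (μ : Measure Ω) (P : Finset ι)
    (F : ι → Set Ω) (Tt : ι → Finset τ) (G : τ → Set Ω) (B : Set Ω)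
    (hB : MeasurableSet B) (hF : ∀ p, MeasurableSet (F p)) (hG : ∀ t, MeasurableSet (G t))
    (h : ∀ p ∈ P, ∀ p' ∈ P, p ≠ p' → ∀ A, A ∈ F p → A ∈ F p' → ∃ t ∈ Tt p, A ∈ G t) :
    ∑ p ∈ P, μ (B ∩ F p) ≤ μ B + ∑ p ∈ P, ∑ t ∈ Tt p, μ (B ∩ F p ∩ G t) := by
  have h1 : ∀ p ∈ P, μ (B ∩ F p) ≤
      μ ((B ∩ F p) \ (⋃ t ∈ Tt p, G t)) + ∑ t ∈ Tt p, μ (B ∩ F p ∩ G t) := by
    intro p _
    calc μ (B ∩ F p) ≤ μ (B ∩ F p ∩ (⋃ t ∈ Tt p, G t)) + μ ((B ∩ F p) \ (⋃ t ∈ Tt p, G t)) :=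
          measure_le_inter_add_sdiff _ _ _
      _ ≤ ∑ t ∈ Tt p, μ (B ∩ F p ∩ G t) + μ ((B ∩ F p) \ (⋃ t ∈ Tt p, G t)) := by
        gcongr
        rw [Set.inter_iUnion₂]
        exact measure_biUnion_finset_le _ _
      _ = _ := add_comm _ _
  calc ∑ p ∈ P, μ (B ∩ F p) ≤
      ∑ p ∈ P, (μ ((B ∩ F p) \ (⋃ t ∈ Tt p, G t)) + ∑ t ∈ Tt p, μ (B ∩ F p ∩ G t)) :=
        Finset.sum_le_sum h1
    _ = ∑ p ∈ P, μ ((B ∩ F p) \ (⋃ t ∈ Tt p, G t)) + ∑ p ∈ P, ∑ t ∈ Tt p, μ (B ∩ F p ∩ G t) :=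
        Finset.sum_add_distrib
    _ ≤ _ := by
      gcongr
      rw [← measure_biUnion_finset]
      · apply measure_mono
        intro A hA
        simp only [Set.mem_iUnion] at hA
        obtain ⟨p, _, hA⟩ := hA
        exact hA.1.1
      · intro p hp p' hp' hne
        rw [Function.onFun, Set.disjoint_left]
        rintro A ⟨⟨_, h2⟩, h3⟩ ⟨⟨_, h4⟩, _⟩
        obtain ⟨t, ht, h5⟩ := h p hp p' hp' hne A h2 h4
        exact h3 (Set.mem_biUnion (s := (Tt p : Set τ)) ht h5)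
      · intro p _
        exact (hB.inter (hF p)).diff (Finset.measurableSet_biUnion _ fun t _ => hG t)

/-- the probability of several hits -/
lemma hits (n a : ℕ) (R : Set Oracle) (hR : Loc {x | x.length ≤ n} R) (h : Finset Cand)
    (hh : ∀ κ ∈ h, κ.2.length = n) :
    randomOracle (R ∩ {A | ∀ κ ∈ h, Hit (n + a) κ A}) =
      2⁻¹ ^ (h.card * (n + a)) * randomOracle R := by
  have h1 := prob_plant (measurableSet_of_loc (finite_length_le n) hR) (allSpots (n + a) h)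
  have h2 : plant (allSpots (n + a) h) ⁻¹' R = R := by
    ext A
    refine hR _ _ fun x hx => ?_
    unfold plant
    rw [if_neg]
    intro hx'
    obtain ⟨κ, hκ, hx''⟩ := M2.mem_allSpots.1 hx'
    obtain ⟨i, _, rfl⟩ := M2.mem_spots.1 hx''
    have h3 := hh κ hκ
    simp only [Set.mem_setOf_eq, length_pos] at hx
    omega
  have h3 : {A : Oracle | ∀ x ∈ allSpots (n + a) h, A x = true} =
      {A | ∀ κ ∈ h, Hit (n + a) κ A} := by
    ext A
    constructor
    · intro hA κ hκ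
      rw [M2.hit_iff]
      exact fun x hx => hA x (M2.mem_allSpots.2 ⟨κ, hκ, hx⟩)
    · intro hA x hx
      obtain ⟨κ, hκ, hx'⟩ := M2.mem_allSpots.1 hx
      exact M2.hit_iff.1 (hA κ hκ) x hx'
  rw [h2, h3, M2.card_allSpots, Set.inter_comm] at h1
  unfold prob Measure.real at h1
  rw [mul_comm h.card]
  refine (ENNReal.toReal_eq_toReal_iff' (measure_ne_top _ _)
    (ENNReal.mul_ne_top (ENNReal.pow_ne_top (by simp)) (measure_ne_top _ _))).1 ?_
  rw [h1, ENNReal.toReal_mul, ENNReal.toReal_pow, ENNReal.toReal_inv]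
  simp

lemma two_hits (n a : ℕ) (R S : Set Oracle) (hR : Loc {x | x.length ≤ n} R) (κ κ' : Cand)
    (h : κ.2.length = n) (h' : κ'.2.length = n) (hne : κ ≠ κ')
    (hS : ∀ A ∈ S, A ∈ R ∧ Hit (n + a) κ A ∧ Hit (n + a) κ' A) :
    randomOracle S ≤ 2⁻¹ ^ (2 * (n + a)) * randomOracle R := by
  have h1 := hits n a R hR {κ, κ'} (by
    intro κ1 hκ1
    rcases Finset.mem_insert.1 hκ1 with rfl | h2
    · exact h
    · rw [Finset.mem_singleton.1 h2]; exact h')
  rw [Finset.card_pair hne] at h1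
  rw [← h1]
  apply measure_mono
  intro A hA
  obtain ⟨h2, h3, h4⟩ := hS A hA
  refine ⟨h2, fun κ1 hκ1 => ?_⟩
  rcases Finset.mem_insert.1 hκ1 with rfl | h5
  · exact h3
  · rw [Finset.mem_singleton.1 h5]; exact h4

lemma three_hits (n a : ℕ) (R S : Set Oracle) (hR : Loc {x | x.length ≤ n} R) (κ κ' κ'' : Cand)
    (h : κ.2.length = n) (h' : κ'.2.length = n) (h'' : κ''.2.length = n) (hne : κ ≠ κ')
    (hne' : κ ≠ κ'') (hne'' : κ' ≠ κ'')
    (hS : ∀ A ∈ S, A ∈ R ∧ Hit (n + a) κ A ∧ Hit (n + a) κ' A ∧ Hit (n + a) κ'' A) :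
    randomOracle S ≤ 2⁻¹ ^ (3 * (n + a)) * randomOracle R := by
  have h1 := hits n a R hR {κ, κ', κ''} (by
    intro κ1 hκ1
    simp only [Finset.mem_insert, Finset.mem_singleton] at hκ1
    rcases hκ1 with rfl | rfl | rfl
    · exact h
    · exact h'
    · exact h'')
  rw [Finset.card_eq_three.2 ⟨κ, κ', κ'', hne, hne', hne'', rfl⟩] at h1
  rw [← h1]
  apply measure_mono
  intro A hA
  obtain ⟨h2, h3, h4, h5⟩ := hS A hA
  refine ⟨h2, fun κ1 hκ1 => ?_⟩
  simp only [Finset.mem_insert, Finset.mem_singleton] at hκ1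
  rcases hκ1 with rfl | rfl | rfl
  · exact h3
  · exact h4
  · exact h5

lemma pow_cancel (n : ℕ) : (2 : ENNReal) ^ n * 2⁻¹ ^ n = 1 := by
  rw [← mul_pow, ENNReal.mul_inv_cancel (by norm_num) (by norm_num), one_pow]

theorem t_UP : S_UP := by
  intro n a R S hR hS
  have hRm : MeasurableSet R := measurableSet_of_loc (finite_length_le n) hR
  set E : Cand → Set Oracle := fun κ => {A | Hit (n + a) κ A} with hEd
  have hE : ∀ κ, MeasurableSet (E κ) := fun κ => M2.measurableSet_hit (n + a) κ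
  set Q : Finset Cand := (Finset.range 2) ×ˢ wds n with hQd
  set P : Finset (List Bool × List Bool) := wds n ×ˢ wds n with hPd
  have hQ : Q.card = 2 * 2 ^ n := by
    rw [hQd, Finset.card_product, Finset.card_range, card_wds]
  have hP : P.card = 2 ^ n * 2 ^ n := by
    rw [hPd, Finset.card_product, card_wds]
  have hQl : ∀ κ ∈ Q, κ.2.length = n := fun κ hκ => mem_wds.1 (Finset.mem_product.1 hκ).2
  have hP1 : ∀ p ∈ P, p.1.length = n := fun p hp => mem_wds.1 (Finset.mem_product.1 hp).1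
  have hP2 : ∀ p ∈ P, p.2.length = n := fun p hp => mem_wds.1 (Finset.mem_product.1 hp).2
  refine ⟨?_, ?_, ?_⟩
  · have e1 : ∑ c ∈ Finset.range 2, ∑ w ∈ wds n,
        randomOracle (R ∩ S ∩ {A | Hit (n + a) (c, w) A}) =
        ∑ κ ∈ Q, randomOracle (R ∩ S ∩ E κ) :=
      (Finset.sum_product (Finset.range 2) (wds n)
        (fun κ : Cand => randomOracle (R ∩ S ∩ E κ))).symm
    rw [e1]
    refine (count_le randomOracle Q E (fun κ => Q.erase κ) E (R ∩ S) (hRm.inter hS) hE hE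
      ?_).trans ?_
    · intro κ hκ κ' hκ' hne A _ hA'
      exact ⟨κ', Finset.mem_erase.2 ⟨hne.symm, hκ'⟩, hA'⟩
    · gcongr
      calc ∑ κ ∈ Q, ∑ t ∈ Q.erase κ, randomOracle (R ∩ S ∩ E κ ∩ E t) ≤
          ∑ κ ∈ Q, ∑ t ∈ Q.erase κ, (2⁻¹ ^ (2 * (n + a)) * randomOracle R) := by
            refine Finset.sum_le_sum fun κ hκ => Finset.sum_le_sum fun t ht => ?_
            obtain ⟨h1, h2⟩ := Finset.mem_erase.1 ht
            exact two_hits n a R _ hR κ t (hQl κ hκ) (hQl t h2) h1.symm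
              (fun A hA => ⟨hA.1.1.1, hA.1.2, hA.2⟩)
        _ ≤ ∑ κ ∈ Q, ∑ t ∈ Q, (2⁻¹ ^ (2 * (n + a)) * randomOracle R) := by
            refine Finset.sum_le_sum fun κ hκ => ?_
            exact Finset.sum_le_sum_of_subset (Finset.erase_subset _ _)
        _ = 4 * 2⁻¹ ^ (2 * a) * randomOracle R := by
            rw [Finset.sum_const, Finset.sum_const, hQ]
            simp only [nsmul_eq_mul]
            push_cast
            have e2 : (2⁻¹ : ENNReal) ^ (2 * (n + a)) = 2⁻¹ ^ n * 2⁻¹ ^ n * 2⁻¹ ^ (2 * a) := by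
              rw [← pow_add, ← pow_add]; congr 1; ring
            rw [e2]
            calc (2 : ENNReal) * 2 ^ n * (2 * 2 ^ n * (2⁻¹ ^ n * 2⁻¹ ^ n * 2⁻¹ ^ (2 * a) *
                randomOracle R)) = 4 * ((2 ^ n * 2⁻¹ ^ n) * (2 ^ n * 2⁻¹ ^ n)) * 2⁻¹ ^ (2 * a) *
                randomOracle R := by ring
              _ = _ := by rw [pow_cancel]; ring
  · have e1 : ∑ w ∈ wds n, ∑ w' ∈ wds n,
        randomOracle (R ∩ S ∩ {A | Hit (n + a) (0, w) A ∧ Hit (n + a) (1, w') A}) =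
        ∑ p ∈ P, randomOracle (R ∩ S ∩ (E (0, p.1) ∩ E (1, p.2))) :=
      (Finset.sum_product (wds n) (wds n)
        (fun p : List Bool × List Bool => randomOracle (R ∩ S ∩ (E (0, p.1) ∩ E (1, p.2))))).symm
    rw [e1]
    refine (count_le randomOracle P (fun p => E (0, p.1) ∩ E (1, p.2))
      (fun p => (Q.erase (0, p.1)).erase (1, p.2)) E (R ∩ S) (hRm.inter hS)
      (fun p => (hE _).inter (hE _)) hE ?_).trans ?_
    · intro p hp p' hp' hne A hA hA'
      by_cases h1 : p.1 = p'.1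
      · have h2 : p.2 ≠ p'.2 := fun h2 => hne (Prod.ext h1 h2)
        refine ⟨(1, p'.2), ?_, hA'.2⟩
        rw [Finset.mem_erase, Finset.mem_erase]
        refine ⟨fun h3 => h2 (congrArg Prod.snd h3).symm, fun h3 => ?_, ?_⟩
        · exact absurd (congrArg Prod.fst h3) (by norm_num)
        · exact Finset.mem_product.2 ⟨by simp, (Finset.mem_product.1 hp').2⟩
      · refine ⟨(0, p'.1), ?_, hA'.1⟩
        rw [Finset.mem_erase, Finset.mem_erase]
        refine ⟨fun h3 => ?_, fun h3 => h1 (congrArg Prod.snd h3).symm, ?_⟩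
        · exact absurd (congrArg Prod.fst h3) (by norm_num)
        · exact Finset.mem_product.2 ⟨by simp, (Finset.mem_product.1 hp').1⟩
    · gcongr
      calc ∑ p ∈ P, ∑ t ∈ (Q.erase (0, p.1)).erase (1, p.2),
            randomOracle (R ∩ S ∩ (E (0, p.1) ∩ E (1, p.2)) ∩ E t) ≤
          ∑ p ∈ P, ∑ t ∈ (Q.erase (0, p.1)).erase (1, p.2),
            (2⁻¹ ^ (3 * (n + a)) * randomOracle R) := by
            refine Finset.sum_le_sum fun p hp => Finset.sum_le_sum fun t ht => ?_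
            rw [Finset.mem_erase, Finset.mem_erase] at ht
            obtain ⟨h1, h2, h3⟩ := ht
            refine three_hits n a R _ hR (0, p.1) (1, p.2) t (hP1 p hp) (hP2 p hp) (hQl t h3)
              (fun h => absurd (congrArg Prod.fst h) (by norm_num)) (Ne.symm h2) (Ne.symm h1)
              (fun A hA => ⟨hA.1.1.1, hA.1.2.1, hA.1.2.2, hA.2⟩)
        _ ≤ ∑ p ∈ P, ∑ t ∈ Q, (2⁻¹ ^ (3 * (n + a)) * randomOracle R) := by
            refine Finset.sum_le_sum fun p hp => ?_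
            exact Finset.sum_le_sum_of_subset
              ((Finset.erase_subset _ _).trans (Finset.erase_subset _ _))
        _ = 2 * 2⁻¹ ^ (3 * a) * randomOracle R := by
            rw [Finset.sum_const, Finset.sum_const, hQ, hP]
            simp only [nsmul_eq_mul]
            push_cast
            have e2 : (2⁻¹ : ENNReal) ^ (3 * (n + a)) =
                2⁻¹ ^ n * 2⁻¹ ^ n * 2⁻¹ ^ n * 2⁻¹ ^ (3 * a) := by
              rw [← pow_add, ← pow_add, ← pow_add]; congr 1; ring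
            rw [e2]
            calc (2 : ENNReal) ^ n * 2 ^ n * (2 * 2 ^ n * (2⁻¹ ^ n * 2⁻¹ ^ n * 2⁻¹ ^ n *
                2⁻¹ ^ (3 * a) * randomOracle R)) =
                2 * ((2 ^ n * 2⁻¹ ^ n) * (2 ^ n * 2⁻¹ ^ n) * (2 ^ n * 2⁻¹ ^ n)) * 2⁻¹ ^ (3 * a) *
                randomOracle R := by ring
              _ = _ := by rw [pow_cancel]; ring
        _ ≤ _ := by gcongr; norm_num
  · calc randomOracle (R ∩ {A | (∃ w : List Bool, w.length = n ∧ Hit (n + a) (0, w) A) ∧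
          ∃ w : List Bool, w.length = n ∧ Hit (n + a) (1, w) A}) ≤
        randomOracle (⋃ p ∈ P, (R ∩ (E (0, p.1) ∩ E (1, p.2)))) := by
          apply measure_mono
          rintro A ⟨hA, ⟨w, hw, h1⟩, ⟨w', hw', h2⟩⟩
          exact Set.mem_biUnion (s := (P : Set (List Bool × List Bool))) (x := (w, w'))
            (Finset.mem_product.2 ⟨mem_wds.2 hw, mem_wds.2 hw'⟩) ⟨hA, h1, h2⟩
      _ ≤ ∑ p ∈ P, randomOracle (R ∩ (E (0, p.1) ∩ E (1, p.2))) :=
          measure_biUnion_finset_le _ _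
      _ ≤ ∑ p ∈ P, (2⁻¹ ^ (2 * (n + a)) * randomOracle R) := by
          refine Finset.sum_le_sum fun p hp => ?_
          exact two_hits n a R _ hR (0, p.1) (1, p.2) (hP1 p hp) (hP2 p hp)
            (fun h => absurd (congrArg Prod.fst h) (by norm_num))
            (fun A hA => ⟨hA.1, hA.2.1, hA.2.2⟩)
      _ = 2⁻¹ ^ (2 * a) * randomOracle R := by
          rw [Finset.sum_const, hP]
          simp only [nsmul_eq_mul]
          push_cast
          have e2 : (2⁻¹ : ENNReal) ^ (2 * (n + a)) = 2⁻¹ ^ n * 2⁻¹ ^ n * 2⁻¹ ^ (2 * a) := by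
            rw [← pow_add, ← pow_add]; congr 1; ring
          rw [e2]
          calc (2 : ENNReal) ^ n * 2 ^ n * (2⁻¹ ^ n * 2⁻¹ ^ n * 2⁻¹ ^ (2 * a) *
              randomOracle R) = ((2 ^ n * 2⁻¹ ^ n) * (2 ^ n * 2⁻¹ ^ n)) * 2⁻¹ ^ (2 * a) *
              randomOracle R := by ring
            _ = _ := by rw [pow_cancel]; ring

end Pool.Agent.J4H19.NPP
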